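import Pool.Agent.EHP.Final

/-!
# Diameter graphs of the maximizers of the product of distances, even number of points

For all sufficiently large even `n`, the diameter graph of every family of `n` points with mutual
distances at most `2` and the largest product of distances is a cycle `C_{n-3}` with three pendant
edges.
-/

namespace Pool.Agent.Results.MP_fd5ac7_co.EvenDiameterGraph

open Pool.Agent.EHP

theorem result : ∃ n₀ : ℕ, ∀ n ≥ n₀, Even n → ∀ z : Fin n → ℂ, IsMaximizer z →
    ∃ a : Fin 3 → Fin (n - 3), Nonempty (diamGraph z ≃g cyclePlus3 (n - 3) a) :=
  f_MAIN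

end Pool.Agent.Results.MP_fd5ac7_co.EvenDiameterGraph
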