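import Pool.Agent.EHP.Final

/-!
# The value of the maximum for an even number of points

`Mx (2 N) / (2 N) ^ (2 N)` tends to `exp c`, where `c` is the sum of `1 / (l ^ 2 (3 l + 1))` over the
odd numbers `l ≥ 1`.
-/

namespace Pool.Agent.Results.MP_fd5ac7_co.EvenValue

open Pool.Agent.EHP

/-- The supremum of the products of the distances (over ordered pairs of different indices) of
families of `n` points of the plane with mutual distances at most `2`. -/
noncomputable def Mx (n : ℕ) : ℝ :=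
  sSup {x : ℝ | ∃ z : Fin n → ℂ, (∀ i j, ‖z i - z j‖ ≤ 2) ∧
    x = ∏ i, ∏ j ∈ Finset.univ.erase i, ‖z i - z j‖}

theorem Mx_eq {n : ℕ} {z : Fin n → ℂ} (hz : IsMaximizer z) : Mx n = PD z := by
  apply IsGreatest.csSup_eq
  refine ⟨⟨z, hz.1, rfl⟩, ?_⟩
  rintro x ⟨w, hw, rfl⟩
  exact hz.2 w hw

theorem result : Filter.Tendsto (fun N : ℕ => Mx (2 * N) / ((2 * N : ℕ) : ℝ) ^ (2 * N)) Filter.atTop
    (nhds (Real.exp (∑' l : ℕ, 1 / ((2 * (l : ℝ) + 1) ^ 2 * (3 * (2 * l + 1) + 1))))) := by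
  have hlog : Filter.Tendsto (fun N : ℕ => Real.log (Mx (2 * N)) -
      ((2 * N : ℕ) : ℝ) * Real.log ((2 * N : ℕ) : ℝ)) Filter.atTop (nhds cstar) := by
    rw [Metric.tendsto_atTop]
    intro ε hε
    obtain ⟨n₀, h⟩ := f_ASY (ε / 2) (by positivity)
    refine ⟨n₀, fun N hN => ?_⟩
    obtain ⟨z, hz⟩ := f_EXM (2 * N)
    have h1 := h (2 * N) (by omega) (even_two_mul N) z hz
    rw [Mx_eq hz, Real.dist_eq]
    linarith
  have hexp := (Real.continuous_exp.tendsto cstar).comp hlog
  have hev : ∀ᶠ N : ℕ in Filter.atTop, (Real.exp ∘ fun N : ℕ => Real.log (Mx (2 * N)) -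
      ((2 * N : ℕ) : ℝ) * Real.log ((2 * N : ℕ) : ℝ)) N =
        Mx (2 * N) / ((2 * N : ℕ) : ℝ) ^ (2 * N) := by
    filter_upwards [Filter.eventually_ge_atTop 1] with N hN
    obtain ⟨z, hz⟩ := f_EXM (2 * N)
    obtain ⟨w, hw, hwz⟩ := f_TRANS (2 * N) z (by omega) hz
    have hinj : Function.Injective z := by
      intro i j hij
      rw [← hwz i, ← hwz j] at hij
      have h2 := hw.pts.inj _ _ hij
      have h3 : ((i : ℕ) : ℤ) - ((j : ℕ) : ℤ) = 0 := by
        apply Int.eq_zero_of_abs_lt_dvd h2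
        rw [abs_lt]
        constructor <;> omega
      exact Fin.ext (by omega)
    have hpos : 0 < PD z := by
      apply Finset.prod_pos
      intro i _
      apply Finset.prod_pos
      intro j hj
      rw [norm_pos_iff, sub_ne_zero]
      intro h
      exact (Finset.ne_of_mem_erase hj) (hinj h).symm
    have hN0 : (0 : ℝ) < ((2 * N : ℕ) : ℝ) := by positivity
    rw [Function.comp_apply, Mx_eq hz, Real.exp_sub, Real.exp_log hpos, ← Real.log_pow,
      Real.exp_log (by positivity)]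
  exact hexp.congr' hev

end Pool.Agent.Results.MP_fd5ac7_co.EvenValue
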